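import Pool.Agent.Y745.SW.DefsA

set_option autoImplicit false

/-!
SW project, job SW-FM (helper41): moments of the sum over the small primes, from the bilinear mean value theorem and
the mean values of the convolution powers.
-/

namespace Pool.Agent.Y41.SW

open Filter Topology MeasureTheory Complex
open Pool.Agent.Y745.SW

noncomputable section

/-- the Dirichlet polynomial with real coefficients -/
def DP (f : ℕ → ℝ) (X : ℕ) (t : ℝ) : ℂ := ∑ n ∈ Finset.Icc 1 X, (f n : ℂ) * (n : ℂ) ^ (-(t : ℂ) * I)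

lemma DP_extend (f : ℕ → ℝ) (X Y : ℕ) (hXY : X ≤ Y) (hf : ∀ n, X < n → f n = 0) (t : ℝ) :
    DP f X t = DP f Y t := by
  unfold DP
  apply Finset.sum_subset
  · exact Finset.Icc_subset_Icc_right hXY
  · intro n hn hn'
    have : X < n := by
      simp only [Finset.mem_Icc, not_and, not_le] at hn hn'
      exact hn' hn.1
    rw [hf n this]; simp

lemma supp_mul (f g : ArithmeticFunction ℝ) (M N : ℕ) (hf : ∀ n, M < n → f n = 0)
    (hg : ∀ n, N < n → g n = 0) : ∀ n, M * N < n → (f * g) n = 0 := by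
  intro n hn
  rw [ArithmeticFunction.mul_apply]
  apply Finset.sum_eq_zero
  intro x hx
  rw [Nat.mem_divisorsAntidiagonal] at hx
  by_cases h1 : M < x.1
  · rw [hf _ h1]; ring
  · by_cases h2 : N < x.2
    · rw [hg _ h2]; ring
    · exfalso
      push Not at h1 h2
      have := Nat.mul_le_mul h1 h2
      omega

lemma DP_mul (f g : ArithmeticFunction ℝ) (M N : ℕ) (hf : ∀ n, M < n → f n = 0)
    (hg : ∀ n, N < n → g n = 0) (t : ℝ) :
    DP f M t * DP g N t = DP ⇑(f * g) (M * N) t := by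
  unfold DP
  rw [Finset.sum_mul_sum, ← Finset.sum_product']
  have hmap : ∀ x ∈ Finset.Icc 1 M ×ˢ Finset.Icc 1 N, x.1 * x.2 ∈ Finset.Icc 1 (M * N) := by
    intro x hx
    simp only [Finset.mem_product, Finset.mem_Icc] at hx ⊢
    exact ⟨Nat.one_le_iff_ne_zero.mpr (by
      have h1 := hx.1.1; have h2 := hx.2.1
      positivity), Nat.mul_le_mul hx.1.2 hx.2.2⟩
  rw [← Finset.sum_fiberwise_of_maps_to hmap]
  apply Finset.sum_congr rfl
  intro r hr
  rw [Finset.mem_Icc] at hr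
  rw [ArithmeticFunction.mul_apply]
  push_cast
  rw [Finset.sum_mul]
  apply Finset.sum_subset_zero_on_sdiff
  · intro x hx
    simp only [Finset.mem_filter, Finset.mem_product, Finset.mem_Icc] at hx
    rw [Nat.mem_divisorsAntidiagonal]
    exact ⟨hx.2, by omega⟩
  · intro x hx
    simp only [Finset.mem_sdiff, Nat.mem_divisorsAntidiagonal, Finset.mem_filter, Finset.mem_product,
      Finset.mem_Icc] at hx
    obtain ⟨⟨h1, h2⟩, h3⟩ := hx
    have hx1 : 1 ≤ x.1 := by
      rcases Nat.eq_zero_or_pos x.1 with h | h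
      · rw [h] at h1; omega
      · exact h
    have hx2 : 1 ≤ x.2 := by
      rcases Nat.eq_zero_or_pos x.2 with h | h
      · rw [h] at h1; omega
      · exact h
    by_cases hM : M < x.1
    · rw [hf _ hM]; simp
    · by_cases hN : N < x.2
      · rw [hg _ hN]; simp
      · exfalso
        push Not at hM hN
        exact h3 ⟨⟨⟨hx1, hM⟩, ⟨hx2, hN⟩⟩, h1⟩
  · intro x hx
    simp only [Finset.mem_filter, Finset.mem_product, Finset.mem_Icc] at hx
    rw [← hx.2]
    push_cast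
    rw [Complex.natCast_mul_natCast_cpow]
    ring

lemma supp_pow (f : ArithmeticFunction ℝ) (X : ℕ) (hf : ∀ n, X < n → f n = 0) (k : ℕ) :
    ∀ n, X ^ k < n → (f ^ k) n = 0 := by
  induction k with
  | zero =>
    intro n hn
    rw [pow_zero, ArithmeticFunction.one_apply_ne]
    simp at hn; omega
  | succ k ih =>
    intro n hn
    rw [pow_succ]
    exact supp_mul (f ^ k) f (X ^ k) X ih hf n (by rwa [← pow_succ])

lemma DP_pow (f : ArithmeticFunction ℝ) (X : ℕ) (hf : ∀ n, X < n → f n = 0) (t : ℝ) (k : ℕ) :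
    DP f X t ^ k = DP ⇑(f ^ k) (X ^ k) t := by
  induction k with
  | zero =>
    rw [pow_zero, pow_zero, pow_zero]
    unfold DP
    simp
  | succ k ih =>
    rw [pow_succ, ih, DP_mul (f ^ k) f (X ^ k) X (supp_pow f X hf k) hf t, pow_succ, pow_succ]

lemma pA_supp (y : ℝ) : ∀ n : ℕ, ⌊y⌋₊ < n → pA y n = 0 := by
  intro n hn
  have : ¬ (n.Prime ∧ (n : ℝ) ≤ y) := by
    rintro ⟨_, h⟩
    have := Nat.le_floor h
    omega
  show (if n.Prime ∧ (n : ℝ) ≤ y then (Real.sqrt n)⁻¹ else 0) = 0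
  rw [if_neg this]

lemma Py_eq (y t : ℝ) : Py y t = DP (pA y) ⌊y⌋₊ t := by
  unfold Py DP
  rw [Finset.sum_filter]
  apply Finset.sum_congr rfl
  intro n hn
  rw [Finset.mem_Icc] at hn
  have hn0 : n ≠ 0 := by omega
  have hny : (n : ℝ) ≤ y := (Nat.le_floor_iff' hn0).mp hn.2
  show _ = (((if n.Prime ∧ (n : ℝ) ≤ y then (Real.sqrt n)⁻¹ else 0 : ℝ)) : ℂ) * _
  by_cases hp : n.Prime
  · rw [if_pos hp, if_pos ⟨hp, hny⟩]
    have hnC : (n : ℂ) ≠ 0 := by exact_mod_cast hn0
    rw [show (-(1 / 2 + (t : ℂ) * I)) = (-(1 / 2 : ℂ)) + (-(t : ℂ) * I) by ring, Complex.cpow_add _ _ hnC]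
    congr 1
    rw [Complex.cpow_neg, Complex.ofReal_inv, Real.sqrt_eq_rpow, Complex.ofReal_cpow (by positivity)]
    push_cast
    rfl
  · rw [if_neg hp, if_neg (fun h => hp h.1)]; simp

lemma Px_pow (T t : ℝ) (k N : ℕ) (hN : ⌊xT T⌋₊ ^ k ≤ N) :
    Px T t ^ k = DP ⇑(pA (xT T) ^ k) N t := by
  rw [Px, Py_eq, DP_pow _ _ (pA_supp _)]
  exact DP_extend _ _ _ hN (supp_pow _ _ (pA_supp _) k) t

lemma LL_tendsto : Tendsto (fun T : ℝ => Real.log (Real.log T)) atTop atTop :=
  Real.tendsto_log_atTop.comp Real.tendsto_log_atTop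

lemma N_bound (m : ℕ) : ∀ᶠ T : ℝ in atTop, 1 ≤ ⌊xT T⌋₊ ∧ ((⌊xT T⌋₊ ^ m : ℕ) : ℝ) ≤ Real.sqrt T ∧ 1 < T ∧
    0 < Real.log (Real.log T) := by
  filter_upwards [LL_tendsto.eventually_ge_atTop (2 * (m:ℝ) + 1), eventually_gt_atTop (1:ℝ),
    Real.tendsto_log_atTop.eventually_ge_atTop (1:ℝ)] with T h1 h2 h3
  have hLL : 0 < Real.log (Real.log T) := by
    have : (0:ℝ) ≤ m := Nat.cast_nonneg m
    linarith
  have hx1 : 1 ≤ xT T := by
    unfold xT
    apply Real.one_le_exp
    positivity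
  refine ⟨?_, ?_, h2, hLL⟩
  · apply Nat.le_floor; simpa using hx1
  · have h4 : ((⌊xT T⌋₊ ^ m : ℕ) : ℝ) ≤ xT T ^ m := by
      push_cast
      exact pow_le_pow_left₀ (Nat.cast_nonneg _) (Nat.floor_le (by linarith)) m
    refine h4.trans ?_
    unfold xT
    rw [← Real.exp_nat_mul, Real.sqrt_eq_rpow, Real.rpow_def_of_pos (by linarith)]
    apply Real.exp_le_exp.mpr
    rw [← mul_div_assoc, div_le_iff₀ hLL]
    have hm : (m:ℝ) * 2 ≤ Real.log (Real.log T) := by linarith
    nlinarith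

/-- the diagonal sums -/
def Sk (k m : ℕ) (T : ℝ) : ℝ := ∑ n ∈ Finset.Icc 1 (⌊xT T⌋₊ ^ m), ((pA (xT T) ^ k) n) ^ 2

lemma Sk_bound (hMC : P_MC) (k m : ℕ) (hkm : k ≤ m) : ∀ᶠ T : ℝ in atTop,
    Real.sqrt (Sk k m T) ≤ Real.sqrt (k.factorial + 1) * Real.log (Real.log T) ^ ((k:ℝ) / 2) := by
  have h := hMC k k
  rw [if_pos rfl] at h
  have h1 := h.eventually_le_const (u := (k.factorial : ℝ) + 1) (by linarith)
  filter_upwards [h1, N_bound m] with T hT hN
  obtain ⟨hX, -, -, hLL⟩ := hN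
  have hS : Sk k m T = ∑ n ∈ Finset.Icc 1 (⌊xT T⌋₊ ^ (k + k)), (pA (xT T) ^ k) n * (pA (xT T) ^ k) n := by
    have hsupp := supp_pow _ _ (pA_supp (xT T)) k
    have e1 : Sk k m T = ∑ n ∈ Finset.Icc 1 (⌊xT T⌋₊ ^ k), ((pA (xT T) ^ k) n) ^ 2 := by
      unfold Sk
      symm
      apply Finset.sum_subset
      · exact Finset.Icc_subset_Icc_right (Nat.pow_le_pow_right hX hkm)
      · intro n hn hn'
        have : ⌊xT T⌋₊ ^ k < n := by
          simp only [Finset.mem_Icc, not_and, not_le] at hn hn'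
          exact hn' hn.1
        rw [hsupp n this]; simp
    rw [e1]
    have e2 : ∀ n, ((pA (xT T) ^ k) n) ^ 2 = (pA (xT T) ^ k) n * (pA (xT T) ^ k) n := fun n => sq _
    simp only [e2]
    apply Finset.sum_subset
    · exact Finset.Icc_subset_Icc_right (Nat.pow_le_pow_right hX (by omega))
    · intro n hn hn'
      have : ⌊xT T⌋₊ ^ k < n := by
        simp only [Finset.mem_Icc, not_and, not_le] at hn hn'
        exact hn' hn.1
      rw [hsupp n this]; simp
  rw [← hS, show ((k:ℝ) + k) / 2 = k by ring, div_le_iff₀ (by positivity)] at hT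
  calc Real.sqrt (Sk k m T) ≤ Real.sqrt (((k.factorial : ℝ) + 1) * Real.log (Real.log T) ^ (k:ℝ)) :=
        Real.sqrt_le_sqrt hT
    _ = Real.sqrt (k.factorial + 1) * Real.log (Real.log T) ^ ((k:ℝ) / 2) := by
        rw [Real.sqrt_mul (by positivity)]
        congr 1
        rw [Real.sqrt_eq_rpow, ← Real.rpow_mul hLL.le]
        congr 1
        ring

lemma err_tendsto : Tendsto (fun T : ℝ => Real.sqrt T * (1 + Real.log T) / T) atTop (𝓝 0) := by
  have h1 : Tendsto (fun T : ℝ => T ^ (-(1/2 : ℝ))) atTop (𝓝 0) := tendsto_rpow_neg_atTop (by norm_num)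
  have h2 : Tendsto (fun T : ℝ => Real.log T / T ^ (1/2 : ℝ)) atTop (𝓝 0) :=
    (isLittleO_log_rpow_atTop (by norm_num : (0:ℝ) < 1/2)).tendsto_div_nhds_zero
  have h3 := h1.add h2
  rw [add_zero] at h3
  apply h3.congr'
  filter_upwards [eventually_gt_atTop (0:ℝ)] with T hT
  have hs : T ^ (1/2 : ℝ) * T ^ (1/2 : ℝ) = T := by
    rw [← Real.rpow_add hT]; norm_num
  have hpos : 0 < T ^ (1/2 : ℝ) := by positivity
  rw [Real.sqrt_eq_rpow, Real.rpow_neg hT.le]
  rw [eq_div_iff hT.ne']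
  field_simp
  rw [sq, hs]
  ring

theorem t_FM : P_MVB → P_MC → P_FM := by
  intro hMVB hMC k l
  set m := k + l with hm
  -- the main term
  have hmain : Tendsto (fun T : ℝ => ((T - 2 * Real.log T) / T) *
      ((∑ n ∈ Finset.Icc 1 (⌊xT T⌋₊ ^ (k + l)), (pA (xT T) ^ k) n * (pA (xT T) ^ l) n) /
        Real.log (Real.log T) ^ (((k:ℝ) + l) / 2))) atTop (𝓝 (1 * (if k = l then (k.factorial : ℝ) else 0))) := by
    refine Tendsto.mul ?_ (hMC k l)
    have h1 : Tendsto (fun T : ℝ => 1 - 2 * (Real.log T / T ^ (1:ℝ))) atTop (𝓝 (1 - 2 * 0)) := by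
      apply Tendsto.sub tendsto_const_nhds
      apply Tendsto.const_mul
      exact (isLittleO_log_rpow_atTop (by norm_num : (0:ℝ) < 1)).tendsto_div_nhds_zero
    rw [mul_zero, sub_zero] at h1
    apply h1.congr'
    filter_upwards [eventually_gt_atTop (0:ℝ)] with T hT
    rw [Real.rpow_one]
    field_simp
  rw [one_mul] at hmain
  have hmainC := (Complex.continuous_ofReal.tendsto _).comp hmain
  have hlim : ((if k = l then (k.factorial : ℝ) else 0 : ℝ) : ℂ) = (if k = l then (k.factorial : ℂ) else 0) := by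
    split_ifs <;> simp
  rw [hlim] at hmainC
  -- the error term
  have herr : Tendsto (fun T : ℝ => (((1 / T) * (1 / Real.log (Real.log T) ^ (((k:ℝ) + l) / 2)) : ℝ) : ℂ) *
      (∫ t in (T + Real.log T)..(2 * T - Real.log T), Px T t ^ k * (starRingEnd ℂ) (Px T t) ^ l) -
      ((((T - 2 * Real.log T) / T) *
      ((∑ n ∈ Finset.Icc 1 (⌊xT T⌋₊ ^ (k + l)), (pA (xT T) ^ k) n * (pA (xT T) ^ l) n) /
        Real.log (Real.log T) ^ (((k:ℝ) + l) / 2)) : ℝ) : ℂ)) atTop (𝓝 0) := by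
    have hb : Tendsto (fun T : ℝ => 8 * (Real.sqrt (k.factorial + 1) * Real.sqrt (l.factorial + 1)) *
        (Real.sqrt T * (1 + Real.log T) / T)) atTop (𝓝 0) := by
      have := err_tendsto.const_mul (8 * (Real.sqrt (k.factorial + 1) * Real.sqrt (l.factorial + 1)))
      rwa [mul_zero] at this
    refine squeeze_zero_norm' ?_ hb
    have hlogT : ∀ᶠ T : ℝ in atTop, 2 * Real.log T ≤ T := by
      have h1 : Tendsto (fun T : ℝ => Real.log T / T ^ (1:ℝ)) atTop (𝓝 0) :=
        (isLittleO_log_rpow_atTop (by norm_num : (0:ℝ) < 1)).tendsto_div_nhds_zero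
      filter_upwards [h1.eventually_le_const (u := 1/2) (by norm_num), eventually_gt_atTop (0:ℝ)] with T h2 h3
      rw [Real.rpow_one, div_le_iff₀ h3] at h2
      linarith
    filter_upwards [N_bound m, Sk_bound hMC k m (by omega), Sk_bound hMC l m (by omega), hlogT]
      with T hN hSk hSl hl
    obtain ⟨hX, hNT, hT1, hLL⟩ := hN
    have hT0 : 0 < T := by linarith
    set N : ℕ := ⌊xT T⌋₊ ^ (k + l) with hNdef
    have hN1 : 1 ≤ N := Nat.one_le_pow _ _ hX
    have hint : ∀ t : ℝ, Px T t ^ k * (starRingEnd ℂ) (Px T t) ^ l =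
        (∑ n ∈ Finset.Icc 1 N, (((pA (xT T) ^ k) n : ℝ) : ℂ) * (n : ℂ) ^ (-(t : ℂ) * I)) *
        (starRingEnd ℂ) (∑ n ∈ Finset.Icc 1 N, (((pA (xT T) ^ l) n : ℝ) : ℂ) * (n : ℂ) ^ (-(t : ℂ) * I)) := by
      intro t
      rw [← map_pow, Px_pow T t k N (Nat.pow_le_pow_right hX (by omega)),
        Px_pow T t l N (Nat.pow_le_pow_right hX (by omega))]
      rfl
    have hMV := hMVB N (T + Real.log T) (2 * T - Real.log T) (by linarith)
      (fun n => (((pA (xT T) ^ k) n : ℝ) : ℂ)) (fun n => (((pA (xT T) ^ l) n : ℝ) : ℂ))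
    simp only [← hint] at hMV
    have hA : (∑ n ∈ Finset.Icc 1 N, (((pA (xT T) ^ k) n : ℝ) : ℂ) *
        (starRingEnd ℂ) (((pA (xT T) ^ l) n : ℝ) : ℂ)) =
        ((∑ n ∈ Finset.Icc 1 N, (pA (xT T) ^ k) n * (pA (xT T) ^ l) n : ℝ) : ℂ) := by
      push_cast
      apply Finset.sum_congr rfl
      intro n _
      rw [Complex.conj_ofReal]
    rw [hA] at hMV
    have hS1 : (∑ n ∈ Finset.Icc 1 N, ‖(((pA (xT T) ^ k) n : ℝ) : ℂ)‖ ^ 2) = Sk k m T := by
      unfold Sk
      apply Finset.sum_congr rfl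
      intro n _
      rw [Complex.norm_real, Real.norm_eq_abs, sq_abs]
    have hS2 : (∑ n ∈ Finset.Icc 1 N, ‖(((pA (xT T) ^ l) n : ℝ) : ℂ)‖ ^ 2) = Sk l m T := by
      unfold Sk
      apply Finset.sum_congr rfl
      intro n _
      rw [Complex.norm_real, Real.norm_eq_abs, sq_abs]
    rw [hS1, hS2] at hMV
    set A : ℝ := ∑ n ∈ Finset.Icc 1 N, (pA (xT T) ^ k) n * (pA (xT T) ^ l) n with hAdef
    set LLp : ℝ := Real.log (Real.log T) ^ (((k:ℝ) + l) / 2) with hLLp
    have hLLp0 : 0 < LLp := by positivity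
    set J : ℂ := ∫ t in (T + Real.log T)..(2 * T - Real.log T), Px T t ^ k * (starRingEnd ℂ) (Px T t) ^ l with hJ
    have hrew : (((1 / T) * (1 / LLp) : ℝ) : ℂ) * J - ((((T - 2 * Real.log T) / T) * (A / LLp) : ℝ) : ℂ) =
        (((1 / T) * (1 / LLp) : ℝ) : ℂ) *
          (J - (((2 * T - Real.log T) - (T + Real.log T) : ℝ) : ℂ) * (A : ℂ)) := by
      rw [mul_sub]
      congr 1
      rw [← Complex.ofReal_mul, ← Complex.ofReal_mul]
      congr 1
      field_simp
      ring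
    rw [hrew, norm_mul, Complex.norm_real, Real.norm_eq_abs, abs_of_pos (by positivity)]
    have hlogN : Real.log N ≤ Real.log T := by
      apply Real.log_le_log (by exact_mod_cast hN1)
      refine hNT.trans ?_
      rw [Real.sqrt_le_left (by linarith)]
      nlinarith
    have hlogN0 : 0 ≤ Real.log N := Real.log_natCast_nonneg N
    have hlogT0 : 0 ≤ Real.log T := Real.log_nonneg hT1.le
    have hsplit : Real.log (Real.log T) ^ ((k:ℝ) / 2) * Real.log (Real.log T) ^ ((l:ℝ) / 2) = LLp := by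
      rw [hLLp, ← Real.rpow_add hLL]
      congr 1; ring
    have hprod : Real.sqrt (Sk k m T) * Real.sqrt (Sk l m T) ≤
        (Real.sqrt (k.factorial + 1) * Real.sqrt (l.factorial + 1)) * LLp := by
      calc Real.sqrt (Sk k m T) * Real.sqrt (Sk l m T)
          ≤ (Real.sqrt (k.factorial + 1) * Real.log (Real.log T) ^ ((k:ℝ) / 2)) *
            (Real.sqrt (l.factorial + 1) * Real.log (Real.log T) ^ ((l:ℝ) / 2)) :=
            mul_le_mul hSk hSl (Real.sqrt_nonneg _) (by positivity)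
        _ = (Real.sqrt (k.factorial + 1) * Real.sqrt (l.factorial + 1)) *
            (Real.log (Real.log T) ^ ((k:ℝ) / 2) * Real.log (Real.log T) ^ ((l:ℝ) / 2)) := by ring
        _ = _ := by rw [hsplit]
    have hNb : (N:ℝ) * (1 + Real.log N) ≤ Real.sqrt T * (1 + Real.log T) := by
      apply mul_le_mul hNT (by linarith) (by linarith) (Real.sqrt_nonneg _)
    calc 1 / T * (1 / LLp) * ‖J - (((2 * T - Real.log T) - (T + Real.log T) : ℝ) : ℂ) * (A : ℂ)‖
        ≤ 1 / T * (1 / LLp) * (8 * N * (1 + Real.log N) * (Real.sqrt (Sk k m T) * Real.sqrt (Sk l m T))) := by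
          apply mul_le_mul_of_nonneg_left hMV (by positivity)
      _ ≤ 1 / T * (1 / LLp) * (8 * (Real.sqrt T * (1 + Real.log T)) *
          ((Real.sqrt (k.factorial + 1) * Real.sqrt (l.factorial + 1)) * LLp)) := by
          apply mul_le_mul_of_nonneg_left _ (by positivity)
          apply mul_le_mul _ hprod (by positivity) (by positivity)
          nlinarith
      _ = 8 * (Real.sqrt (k.factorial + 1) * Real.sqrt (l.factorial + 1)) *
        (Real.sqrt T * (1 + Real.log T) / T) := by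
          field_simp
  have := herr.add hmainC
  rw [zero_add] at this
  refine this.congr ?_
  intro T
  simp only [Function.comp]
  ring

end

end Pool.Agent.Y41.SW
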